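import Mathlib
import Pool.Agent.Lib_helper98.RenyiConvex

/-!
# Trace functions: conjugation, reindexing, blocks, compression (MP_859019_mp, `(3,4)`, block D2a)
-/

set_option autoImplicit false

open scoped Kronecker ComplexOrder

namespace Pool.Agent.Lib_helper82.GC34

open Matrix Polynomial
open Pool.Agent.Lib_helper98.Renyi (trF cfc_eq_aeval exists_poly_spectra conjHom conjHom_apply
  exists_spectral trace_conj)

section

variable {n m ζ υ : Type*} [Fintype n] [DecidableEq n] [Fintype m] [DecidableEq m]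
  [Fintype ζ] [DecidableEq ζ] [Fintype υ] [DecidableEq υ]

/-- `Tr f(U M U*) = Tr f(M)` -/
theorem trF_conj (f : ℝ → ℝ) {U M : Matrix n n ℂ} (hU : Uᴴ * U = 1) (hM : M.IsHermitian) :
    trF f (U * M * Uᴴ) = trF f M := by
  classical
  obtain ⟨p, hp, -⟩ := exists_poly_spectra (Finset.univ : Finset Bool)
    (fun b => if b then U * M * Uᴴ else M) ∅ f
  have h1 : cfc f (U * M * Uᴴ) = aeval (U * M * Uᴴ) p :=
    cfc_eq_aeval (isHermitian_mul_mul_conjTranspose U hM) f p
      (by simpa using hp true (Finset.mem_univ _))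
  have h2 : cfc f M = aeval M p := cfc_eq_aeval hM f p (by simpa using hp false (Finset.mem_univ _))
  rw [trF, trF, h1, h2, ← conjHom_apply U hU, Polynomial.aeval_algHom_apply, conjHom_apply,
    trace_conj _ _ hU]

/-- reindexing as an algebra homomorphism -/
theorem aeval_submatrix (e : m ≃ n) (M : Matrix n n ℂ) (p : ℝ[X]) :
    aeval (M.submatrix e e) p = (aeval M p).submatrix e e := by
  have h := Polynomial.aeval_algHom_apply
    ((Matrix.reindexAlgEquiv ℝ ℂ e.symm).toAlgHom) M p
  simpa [Matrix.coe_reindexAlgEquiv, Matrix.reindex_apply] using h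

theorem trF_submatrix (f : ℝ → ℝ) (e : m ≃ n) {M : Matrix n n ℂ} (hM : M.IsHermitian) :
    trF f (M.submatrix e e) = trF f M := by
  classical
  obtain ⟨p, hp, hp'⟩ := exists_poly_spectra (Finset.univ : Finset Unit) (fun _ => M)
    (Pool.Agent.Lib_helper98.Renyi.spectrum_finite (M.submatrix e e)).toFinset f
  have h1 : cfc f (M.submatrix e e) = aeval (M.submatrix e e) p :=
    cfc_eq_aeval (hM.submatrix e) f p fun x hx => hp' x (by simpa using hx)
  have h2 : cfc f M = aeval M p := cfc_eq_aeval hM f p (hp () (Finset.mem_univ _))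
  rw [trF, trF, h1, h2, aeval_submatrix]
  congr 1
  exact Equiv.sum_comp e fun i => (aeval M p) i i

theorem aeval_fromBlocks (X : Matrix ζ ζ ℂ) (Y : Matrix υ υ ℂ) (p : ℝ[X]) :
    aeval (fromBlocks X 0 0 Y) p = fromBlocks (aeval X p) 0 0 (aeval Y p) := by
  induction p using Polynomial.induction_on' with
  | add p q hp hq =>
    rw [map_add, map_add, map_add, hp, hq, fromBlocks_add]
    simp
  | monomial k a =>
    simp only [aeval_monomial]
    rw [Matrix.fromBlocks_diagonal_pow, ← Algebra.smul_def, ← Algebra.smul_def, ← Algebra.smul_def,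
      fromBlocks_smul]
    simp

theorem trF_fromBlocks (f : ℝ → ℝ) {X : Matrix ζ ζ ℂ} {Y : Matrix υ υ ℂ} (hX : X.IsHermitian)
    (hY : Y.IsHermitian) : trF f (fromBlocks X 0 0 Y) = trF f X + trF f Y := by
  classical
  have hB : (fromBlocks X 0 0 Y).IsHermitian := by
    rw [Matrix.IsHermitian, fromBlocks_conjTranspose, hX.eq, hY.eq]
    simp
  obtain ⟨p, hp, hp'⟩ := exists_poly_spectra (Finset.univ : Finset Unit)
    (fun _ => fromBlocks X 0 0 Y)
    ((Pool.Agent.Lib_helper98.Renyi.spectrum_finite X).toFinset ∪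
      (Pool.Agent.Lib_helper98.Renyi.spectrum_finite Y).toFinset) f
  have h1 : cfc f (fromBlocks X 0 0 Y) = aeval (fromBlocks X 0 0 Y) p :=
    cfc_eq_aeval hB f p (hp () (Finset.mem_univ _))
  have h2 : cfc f X = aeval X p := cfc_eq_aeval hX f p fun x hx => hp' x (by simp [hx])
  have h3 : cfc f Y = aeval Y p := cfc_eq_aeval hY f p fun x hx => hp' x (by simp [hx])
  rw [trF, trF, trF, h1, h2, h3, aeval_fromBlocks, ← Complex.add_re]
  congr 1
  simp [Matrix.trace, Fintype.sum_sum_type]

theorem trF_zero (f : ℝ → ℝ) : trF f (0 : Matrix n n ℂ) = Fintype.card n * f 0 := by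
  have h := Pool.Agent.Lib_helper98.Renyi.trF_conj_diagonal f (1 : Matrix n n ℂ) (by simp)
    (fun _ => 0)
  simp only [Complex.ofReal_zero, diagonal_zero, Matrix.mul_zero, Matrix.zero_mul,
    Finset.sum_const, Finset.card_univ, nsmul_eq_mul] at h
  exact h

/-- the compression `S X S`, `S = diag(d)`, with `d = 0` on `ζ` and `d = 1` on `υ` -/
theorem trF_cut (f : ℝ → ℝ) (hf : f 0 = 0) (e : ζ ⊕ υ ≃ n) (d : n → ℂ)
    (h0 : ∀ i, d (e (Sum.inl i)) = 0) (h1 : ∀ i, d (e (Sum.inr i)) = 1) {X : Matrix n n ℂ}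
    (hX : X.IsHermitian) :
    trF f (diagonal d * X * diagonal d) =
      trF f (X.submatrix (fun i => e (Sum.inr i)) (fun i => e (Sum.inr i))) := by
  have hd : ∀ i, star (d i) = d i := by
    intro i
    obtain ⟨j, rfl⟩ := e.surjective i
    rcases j with j | j
    · rw [h0, star_zero]
    · rw [h1, star_one]
  have hD : (diagonal d)ᴴ = diagonal d := by
    rw [diagonal_conjTranspose]
    congr 1
    funext i
    exact hd i
  have hH : (diagonal d * X * diagonal d).IsHermitian := by
    have := isHermitian_mul_mul_conjTranspose (diagonal d) hX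
    rwa [hD] at this
  rw [← trF_submatrix f e hH]
  have hb : (diagonal d * X * diagonal d).submatrix e e =
      fromBlocks (0 : Matrix ζ ζ ℂ) 0 0
        (X.submatrix (fun i => e (Sum.inr i)) (fun i => e (Sum.inr i))) := by
    ext i j
    simp only [submatrix_apply, mul_diagonal, diagonal_mul]
    rcases i with i | i <;> rcases j with j | j <;> simp [h0, h1, fromBlocks]
  rw [hb, trF_fromBlocks f isHermitian_zero (hX.submatrix _), trF_zero, hf, mul_zero, zero_add]

end

end Pool.Agent.Lib_helper82.GC34
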