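import Pool.Agent.Lib_helper31.GC34.Defs2
import Pool.Agent.Lib_helper82.GC34.Tf

/-!
# `tf_succ`, `tf_succ_kron` (MP_859019_mp, `(3,4)`)
-/

set_option autoImplicit false
set_option linter.unusedSectionVars false

open scoped BigOperators ComplexOrder Kronecker MatrixOrder
open MeasureTheory Set Matrix

namespace Pool.Agent.Lib_helper82.GC34

open Pool.Agent.GC34 Pool.Agent.RC

variable {ι κ : Type} [Fintype ι] [DecidableEq ι] [Fintype κ] [DecidableEq κ]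

theorem tf_eq (f : ℝ → ℝ) (X : Matrix ι ι ℂ) :
    tf f X = Pool.Agent.Lib_helper98.Renyi.trF f X := rfl

/-- `{0} ⊔ {1, …, n}` -/
def eqS (n : ℕ) : Unit ⊕ Fin n ≃ Fin (n + 1) :=
  (Equiv.sumComm _ _).trans ((Equiv.optionEquivSumPUnit (Fin n)).symm.trans (finSuccEquiv n).symm)

theorem eqS_inl (n : ℕ) (i : Unit) : eqS n (Sum.inl i) = 0 := by
  simp [eqS]

theorem eqS_inr (n : ℕ) (i : Fin n) : eqS n (Sum.inr i) = i.succ := by
  simp [eqS]

/-- the same with a factor `κ` -/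
def eqK (n : ℕ) (κ : Type) : (Unit × κ) ⊕ (Fin n × κ) ≃ Fin (n + 1) × κ :=
  (Equiv.sumProdDistrib _ _ _).symm.trans (Equiv.prodCongr (eqS n) (Equiv.refl κ))

theorem eqK_inl (n : ℕ) (i : Unit × κ) : eqK n κ (Sum.inl i) = (0, i.2) := by
  simp [eqK, eqS_inl]

theorem eqK_inr (n : ℕ) (i : Fin n × κ) : eqK n κ (Sum.inr i) = (i.1.succ, i.2) := by
  simp [eqK, eqS_inr]

/-- trace of a function of a matrix with vanishing first row and column -/
theorem tf_succ {n : ℕ} {f : ℝ → ℝ} (hf : f 0 = 0) {X : Matrix (Fin (n + 1)) (Fin (n + 1)) ℂ}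
    (hX : X.IsHermitian) : tf f (low {0} 0 X) = tf f (X.submatrix Fin.succ Fin.succ) := by
  rw [tf_eq, tf_eq, low, SZ, trF_cut f hf (eqS n) _ (fun i => ?_) (fun i => ?_) hX]
  · congr 1
  · rw [eqS_inl]
    simp
  · rw [eqS_inr]
    simp [Fin.succ_ne_zero]

/-- the same for a block of rows and columns -/
theorem tf_succ_kron {n : ℕ} {f : ℝ → ℝ} (hf : f 0 = 0)
    {A B : Matrix (Fin (n + 1)) (Fin (n + 1)) ℂ} {C D : Matrix κ κ ℂ}
    (hX : (A ⊗ₖ C + B ⊗ₖ D).IsHermitian) :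
    tf f (low (({0} : Finset (Fin (n + 1))) ×ˢ Finset.univ) 0 (A ⊗ₖ C + B ⊗ₖ D)) =
      tf f ((A.submatrix Fin.succ Fin.succ) ⊗ₖ C + (B.submatrix Fin.succ Fin.succ) ⊗ₖ D) := by
  rw [tf_eq, tf_eq, low, SZ, trF_cut f hf (eqK n κ) _ (fun i => ?_) (fun i => ?_) hX]
  · congr 1
  · rw [eqK_inl]
    simp
  · rw [eqK_inr]
    simpa using (Fin.succ_ne_zero i.1).symm

end Pool.Agent.Lib_helper82.GC34
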