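import Pool.Agent.Lib_helper31.GC34.Defs2
import Pool.Agent.Lib_helper82.GC34.Succ
import Pool.Agent.Lib_helper14.GC34.Cong
import Pool.Agent.Lib_helper98.RC.T2

/-!
# The induction on `dim V` (MP_859019_mp, `(3,4)`)
-/

set_option autoImplicit false
set_option linter.unusedSectionVars false

open scoped BigOperators ComplexOrder Kronecker MatrixOrder
open MeasureTheory Set Matrix

namespace Pool.Agent.Lib_helper82.GC34

open Pool.Agent.GC34 Pool.Agent.RC

variable {ι κ μ : Type} [Fintype ι] [DecidableEq ι] [Fintype κ] [DecidableEq κ] [Fintype μ]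
  [DecidableEq μ]

theorem strict_herm_left {A D : Matrix ι ι ℂ} (h : Strict A D) : A.IsHermitian :=
  (Pool.Agent.GC34c.posDef_of_strict h.sub h.add).1

theorem strict_herm_right {A D : Matrix ι ι ℂ} (h : Strict A D) : D.IsHermitian :=
  Pool.Agent.GC34c.herm_of_strict h.sub h.add

theorem herm_kron {A : Matrix ι ι ℂ} {C : Matrix κ κ ℂ} (hA : A.IsHermitian)
    (hC : C.IsHermitian) : (A ⊗ₖ C).IsHermitian := by
  rw [Matrix.IsHermitian, conjTranspose_kronecker, hA.eq, hC.eq]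

/-! ### unitary conjugation -/

theorem Hs_conj {p : ℝ} {U A D : Matrix ι ι ℂ} (hU : U * Uᴴ = 1) (hA : A.IsHermitian)
    (hD : D.IsHermitian) : Hs p (Uᴴ * A * U) (Uᴴ * D * U) = Hs p A D := by
  have hV : Uᴴᴴ * Uᴴ = 1 := by rw [conjTranspose_conjTranspose, hU]
  have h1 := trF_conj (fun x : ℝ => x ^ p) hV (hA.add hD)
  have h2 := trF_conj (fun x : ℝ => x ^ p) hV (hA.sub hD)
  rw [conjTranspose_conjTranspose] at h1 h2
  have e1 : Uᴴ * A * U + Uᴴ * D * U = Uᴴ * (A + D) * U := by noncomm_ring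
  have e2 : Uᴴ * A * U - Uᴴ * D * U = Uᴴ * (A - D) * U := by noncomm_ring
  rw [Hs, Hs, e1, e2, tf_eq, tf_eq, tf_eq, tf_eq, h1, h2]

theorem Ts_conj' {p : ℝ} {U A D : Matrix ι ι ℂ} (hU : Uᴴ * U = 1) (hU' : U * Uᴴ = 1) (m : ℕ) :
    Ts p (Uᴴ * A * U) (Uᴴ * D * U) m = Ts p A D m := by
  have e : ∀ X : Matrix ι ι ℂ, Uᴴ * X * U = star U * X * star (star U) := by
    intro X
    rw [star_star, star_eq_conjTranspose]
  have h1 : star (star U) * star U = 1 := by rw [star_star, star_eq_conjTranspose, hU']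
  have h2 : star U * star (star U) = 1 := by rw [star_star, star_eq_conjTranspose, hU]
  rcases m with _ | m
  · show T2 p _ _ = T2 p _ _
    rw [e, e]
    exact T2_conj p (star U) A D h1 h2
  · show In p _ _ _ / _ = In p _ _ _ / _
    rw [e, e]
    rw [In_conj p (star U) A D h1 h2]

theorem ms_conj {p : ℝ} {U A D : Matrix ι ι ℂ} (hU : Uᴴ * U = 1) (hU' : U * Uᴴ = 1)
    (hA : A.IsHermitian) (k : ℕ) : ms p (Uᴴ * A * U) (Uᴴ * D * U) k = ms p A D k := by
  unfold ms
  have hV : Uᴴᴴ * Uᴴ = 1 := by rw [conjTranspose_conjTranspose, hU']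
  have h1 := trF_conj (fun x : ℝ => x ^ p) hV hA
  rw [conjTranspose_conjTranspose] at h1
  rw [tf_eq, tf_eq, h1, Ts_conj' hU hU']

theorem TT_conj {p : ℝ} {U A B : Matrix ι ι ℂ} {C D : Matrix κ κ ℂ} (hU : Uᴴ * U = 1)
    (hU' : U * Uᴴ = 1) (hA : A.IsHermitian) (hB : B.IsHermitian) (hC : C.IsHermitian)
    (hD : D.IsHermitian) : TT p (Uᴴ * A * U) (Uᴴ * B * U) C D = TT p A B C D := by
  unfold TT
  have e : ∀ (X : Matrix ι ι ℂ) (Y : Matrix κ κ ℂ), (Uᴴ * X * U) ⊗ₖ Y =
      (U ⊗ₖ (1 : Matrix κ κ ℂ))ᴴ * (X ⊗ₖ Y) * (U ⊗ₖ (1 : Matrix κ κ ℂ)) := by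
    intro X Y
    rw [conjTranspose_kronecker, conjTranspose_one, ← mul_kronecker_mul, ← mul_kronecker_mul,
      Matrix.one_mul, Matrix.mul_one]
  have hK : (U ⊗ₖ (1 : Matrix κ κ ℂ)) * (U ⊗ₖ (1 : Matrix κ κ ℂ))ᴴ = 1 := by
    rw [conjTranspose_kronecker, conjTranspose_one, ← mul_kronecker_mul, hU', Matrix.one_mul,
      one_kronecker_one]
  rw [e, e, Hs_conj hK (herm_kron hA hC) (herm_kron hB hD)]
  simp only [ms_conj hU hU' hA]

/-! ### reindexing -/

theorem Hs_sub {p : ℝ} (e : μ ≃ ι) {A D : Matrix ι ι ℂ} (hA : A.IsHermitian)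
    (hD : D.IsHermitian) : Hs p (A.submatrix e e) (D.submatrix e e) = Hs p A D := by
  have e1 : A.submatrix e e + D.submatrix e e = (A + D).submatrix e e := rfl
  have e2 : A.submatrix e e - D.submatrix e e = (A - D).submatrix e e := rfl
  rw [Hs, Hs, e1, e2, tf_eq, tf_eq, tf_eq, tf_eq, trF_submatrix _ e (hA.add hD),
    trF_submatrix _ e (hA.sub hD)]

theorem Res_sub (e : μ ≃ ι) (A : Matrix ι ι ℂ) (r : ℝ) :
    Res (A.submatrix e e) r = (Res A r).submatrix e e := by
  unfold Res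
  rw [← inv_submatrix_equiv]
  congr 1
  ext i j
  simp [Matrix.one_apply]

theorem trace_sub (e : μ ≃ ι) (M : Matrix ι ι ℂ) : (M.submatrix e e).trace = M.trace :=
  Equiv.sum_comp e fun i => M i i

theorem pow_sub (e : μ ≃ ι) (M : Matrix ι ι ℂ) (n : ℕ) :
    (M.submatrix e e) ^ n = (M ^ n).submatrix e e := by
  induction n with
  | zero => simp
  | succ n ih => rw [pow_succ, pow_succ, ih, submatrix_mul_equiv]

theorem tn_sub (e : μ ≃ ι) (A D : Matrix ι ι ℂ) (n : ℕ) (r : ℝ) :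
    tn (A.submatrix e e) (D.submatrix e e) n r = tn A D n r := by
  unfold tn
  rw [Res_sub, submatrix_mul_equiv, pow_sub, trace_sub]

theorem j2_sub (e : μ ≃ ι) (A D : Matrix ι ι ℂ) (r : ℝ) :
    j2 (A.submatrix e e) (D.submatrix e e) r = j2 A D r := by
  unfold j2
  simp only [Res_sub, submatrix_mul_equiv, trace_sub]

theorem Ts_sub {p : ℝ} (e : μ ≃ ι) (A D : Matrix ι ι ℂ) (m : ℕ) :
    Ts p (A.submatrix e e) (D.submatrix e e) m = Ts p A D m := by
  rcases m with _ | m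
  · show T2 p _ _ = T2 p _ _
    unfold T2
    simp only [j2_sub]
  · show In p _ _ _ / _ = In p _ _ _ / _
    unfold In
    simp only [tn_sub]

theorem ms_sub {p : ℝ} (e : μ ≃ ι) {A D : Matrix ι ι ℂ} (hA : A.IsHermitian) (k : ℕ) :
    ms p (A.submatrix e e) (D.submatrix e e) k = ms p A D k := by
  unfold ms
  rw [tf_eq, tf_eq, trF_submatrix _ e hA, Ts_sub]

theorem TT_sub {p : ℝ} (e : μ ≃ ι) {A B : Matrix ι ι ℂ} {C D : Matrix κ κ ℂ}
    (hA : A.IsHermitian) (hB : B.IsHermitian) (hC : C.IsHermitian) (hD : D.IsHermitian) :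
    TT p (A.submatrix e e) (B.submatrix e e) C D = TT p A B C D := by
  unfold TT
  have h : ∀ (X : Matrix ι ι ℂ) (Y : Matrix κ κ ℂ), (X.submatrix e e) ⊗ₖ Y =
      (X ⊗ₖ Y).submatrix (Equiv.prodCongr e (Equiv.refl κ)) (Equiv.prodCongr e (Equiv.refl κ)) := by
    intro X Y
    rfl
  rw [h, h, Hs_sub _ (herm_kron hA hC) (herm_kron hB hD)]
  simp only [ms_sub e hA]

/-! ### the induction -/

theorem strict_conj {U A B : Matrix ι ι ℂ} (hU : Uᴴ * U = 1) (h : Strict A B) :
    Strict (Uᴴ * A * U) (Uᴴ * B * U) := by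
  have hinj : Function.Injective U.mulVec := by
    intro x y hxy
    have := congrArg (fun z => Uᴴ *ᵥ z) hxy
    simpa [mulVec_mulVec, hU] using this
  constructor
  · have e1 : Uᴴ * A * U + Uᴴ * B * U = Uᴴ * (A + B) * U := by noncomm_ring
    rw [e1]
    exact h.add.conjTranspose_mul_mul_same hinj
  · have e2 : Uᴴ * A * U - Uᴴ * B * U = Uᴴ * (A - B) * U := by noncomm_ring
    rw [e2]
    exact h.sub.conjTranspose_mul_mul_same hinj

theorem posDef_submatrix {M : Matrix ι ι ℂ} (h : M.PosDef) {g : μ → ι}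
    (hg : Function.Injective g) : (M.submatrix g g).PosDef := h.submatrix hg

theorem strict_sub {A B : Matrix ι ι ℂ} (h : Strict A B) {g : μ → ι}
    (hg : Function.Injective g) : Strict (A.submatrix g g) (B.submatrix g g) :=
  ⟨posDef_submatrix h.add hg, posDef_submatrix h.sub hg⟩

theorem TT_empty [IsEmpty ι] {p : ℝ} (A B : Matrix ι ι ℂ) (C D : Matrix κ κ ℂ) :
    TT p A B C D = 0 := by
  have h1 : ∀ k, ms p A B k = 0 := by
    intro k
    unfold ms
    have hT : ∀ m, Ts p A B m = 0 := by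
      intro m
      rcases m with _ | m
      · show T2 p _ _ = 0
        unfold T2 j2
        simp [Matrix.trace]
      · show In p _ _ _ / _ = 0
        unfold In tn
        simp [Matrix.trace]
    have h0 : tf (fun x : ℝ => x ^ p) A = 0 := by
      unfold tf
      simp [Matrix.trace]
    rw [hT, h0]
    simp
  unfold TT Hs tf
  simp [h1, Matrix.trace]

theorem tt_fin {p : ℝ} {C D : Matrix κ κ ℂ} (hC : C.IsHermitian) (hD : D.IsHermitian)
    (hstep : ∀ (n : ℕ) (A B : Matrix (Fin (n + 1)) (Fin (n + 1)) ℂ) (lam : ℝ), Strict A B →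
      -1 < lam → lam < 1 → (lam • A - B).PosSemidef → B *ᵥ e0 = lam • (A *ᵥ e0) →
      TT p (A.submatrix Fin.succ Fin.succ) (B.submatrix Fin.succ Fin.succ) C D ≤ TT p A B C D) :
    ∀ (n : ℕ) (A B : Matrix (Fin n) (Fin n) ℂ), Strict A B → 0 ≤ TT p A B C D := by
  intro n
  induction n with
  | zero =>
    intro A B _
    rw [TT_empty]
  | succ n ih =>
    intro A B h
    have h2 : (A + -B).PosDef := by
      rw [← sub_eq_add_neg]
      exact h.sub
    have h1 : (A - -B).PosDef := by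
      rw [sub_neg_eq_add]
      exact h.add
    obtain ⟨U, lam, hU, hU', hl, hu, hpsd⟩ := Pool.Agent.GC34c.cong h1 h2
    have hA := strict_herm_left h
    have hB := strict_herm_right h
    have hs := strict_conj hU h
    have hneg : Uᴴ * (-B) * U = -(Uᴴ * B * U) := by noncomm_ring
    rw [hneg] at hu hpsd
    have k1 := hstep n (Uᴴ * A * U) (Uᴴ * B * U) (-lam) hs (by linarith [(abs_lt.1 hl).2])
      (by linarith [(abs_lt.1 hl).1])
      (by
        have e : (-lam) • (Uᴴ * A * U) - Uᴴ * B * U = -(Uᴴ * B * U) - lam • (Uᴴ * A * U) := by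
          rw [neg_smul]
          abel
        rw [e]
        exact hpsd)
      (by
        have e : (-lam) • ((Uᴴ * A * U) *ᵥ (e0 : Fin (n + 1) → ℂ)) =
            -(lam • ((Uᴴ * A * U) *ᵥ e0)) := neg_smul _ _
        rw [e]
        rw [neg_mulVec] at hu
        change -((Uᴴ * B * U) *ᵥ (e0 : Fin (n + 1) → ℂ)) = lam • ((Uᴴ * A * U) *ᵥ e0) at hu
        rw [← hu]
        exact (neg_neg _).symm)
    have k2 := ih ((Uᴴ * A * U).submatrix Fin.succ Fin.succ)
      ((Uᴴ * B * U).submatrix Fin.succ Fin.succ) (strict_sub hs (Fin.succ_injective n))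
    rw [TT_conj hU hU' hA hB hC hD] at k1
    linarith

/-- the induction -/
theorem tt_nonneg_of {p : ℝ} {A B : Matrix ι ι ℂ} {C D : Matrix κ κ ℂ}
    (hstep : ∀ (n : ℕ) (A B : Matrix (Fin (n + 1)) (Fin (n + 1)) ℂ) (lam : ℝ), Strict A B →
      -1 < lam → lam < 1 → (lam • A - B).PosSemidef → B *ᵥ e0 = lam • (A *ᵥ e0) →
      TT p (A.submatrix Fin.succ Fin.succ) (B.submatrix Fin.succ Fin.succ) C D ≤ TT p A B C D)
    (hV : Strict A B) (hW : Strict C D) : 0 ≤ TT p A B C D := by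
  have hC := strict_herm_left hW
  have hD := strict_herm_right hW
  let e : Fin (Fintype.card ι) ≃ ι := (Fintype.equivFin ι).symm
  rw [← TT_sub e (strict_herm_left hV) (strict_herm_right hV) hC hD]
  exact tt_fin hC hD hstep _ _ _ (strict_sub hV e.injective)

end Pool.Agent.Lib_helper82.GC34
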